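import Pool.Agent.W2helper1.DG.Stm

/-!
# Project DG: the piece L3geo
-/

set_option autoImplicit false

namespace Pool.Agent.W2helper60.DGL3geo

open Set
open Pool.Agent.Results.MP_2da123_co.DimSix (IsGraphOf IsPolytopal joinComplete)
open Pool.Agent.Results.MP_2da123_co
open Pool.Agent.W2helper1.DG

theorem adj_inl {V : Type} (G : SimpleGraph V) (n : ℕ) (u v : V) :
    (joinComplete G n).Adj (Sum.inl u) (Sum.inl v) ↔ G.Adj u v := by
  constructor
  · intro h
    exact h.2 u v rfl rfl
  · intro h
    refine ⟨fun h1 => h.ne (Sum.inl.inj h1), ?_⟩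
    intro u' v' hu hv
    rw [← Sum.inl.inj hu, ← Sum.inl.inj hv]
    exact h

theorem adj_inr {V : Type} (G : SimpleGraph V) (v : V) :
    (joinComplete G 1).Adj (Sum.inr 0) (Sum.inl v) :=
  ⟨by simp, fun u v hu _ => by cases hu⟩

/-- the polytope is the convex hull of its vertices -/
theorem hull_eq {d : ℕ} {U : Type} [Finite U] {H : SimpleGraph U}
    {P : Set (EuclideanSpace ℝ (Fin d))} {p : U → EuclideanSpace ℝ (Fin d)}
    (h : IsGraphOf d H P p) : P = convexHull ℝ (range p) := by
  obtain ⟨⟨S, hS⟩, _, hinj, hext, _⟩ := h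
  have hcomp : IsCompact P := by
    rw [hS]
    exact S.finite_toSet.isCompact_convexHull ℝ
  have hconv : Convex ℝ P := hS ▸ convex_convexHull ℝ _
  have h1 := closure_convexHull_extremePoints hcomp hconv
  rw [← hext] at h1
  rw [← h1]
  have h2 : IsClosed (convexHull ℝ (range p)) :=
    (Set.finite_range p).isClosed_convexHull ℝ
  rw [h2.closure_eq]

/-- an edge is given by a functional -/
theorem edge_fun {d : ℕ} {U : Type} {H : SimpleGraph U}
    {P : Set (EuclideanSpace ℝ (Fin d))} {p : U → EuclideanSpace ℝ (Fin d)}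
    (h : IsGraphOf d H P p) {u v : U} (huv : H.Adj u v) :
    ∃ l : EuclideanSpace ℝ (Fin d) →L[ℝ] ℝ, l (p u) = l (p v) ∧
      ∀ z, z ≠ u → z ≠ v → l (p z) < l (p u) := by
  obtain ⟨⟨S, hS⟩, _, hinj, hext, hadj⟩ := h
  have hexp := ((hadj u v).1 huv).2
  have hpP : ∀ z, p z ∈ P := fun z => extremePoints_subset (hext ▸ mem_range_self z)
  obtain ⟨l, hl⟩ := hexp ⟨p u, left_mem_segment ℝ _ _⟩
  have hu := left_mem_segment ℝ (p u) (p v)
  have hv := right_mem_segment ℝ (p u) (p v)
  rw [hl] at hu hv
  refine ⟨l, le_antisymm (hv.2 _ hu.1) (hu.2 _ hv.1), fun z hzu hzv => ?_⟩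
  refine lt_of_le_of_ne (hu.2 _ (hpP z)) fun heq => ?_
  have hz : p z ∈ segment ℝ (p u) (p v) := by
    rw [hl]
    refine ⟨hpP z, fun y hy => ?_⟩
    rw [heq]
    exact hu.2 y hy
  have h1 : p z ∈ P.extremePoints ℝ := hext ▸ mem_range_self z
  rcases (mem_extremePoints_iff_forall_segment.1 h1).2 _ (hpP u) _ (hpP v) hz with h | h
  · exact hzu (hinj h.symm)
  · exact hzv (hinj h.symm)

/-- a dimension `d` polytope has at least `d + 1` vertices -/
theorem card_ge {d : ℕ} {U : Type} [Fintype U] {H : SimpleGraph U}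
    {P : Set (EuclideanSpace ℝ (Fin d))} {p : U → EuclideanSpace ℝ (Fin d)}
    (h : IsGraphOf d H P p) {n : ℕ} (hn : Fintype.card U = n + 1) : d ≤ n := by
  have hP := hull_eq h
  have h1 : (interior P).Nonempty := h.2.1
  rw [hP, interior_convexHull_nonempty_iff_affineSpan_eq_top] at h1
  have h2 := finrank_vectorSpan_range_le ℝ p hn
  rw [← direction_affineSpan, h1, AffineSubspace.direction_top, finrank_top] at h2
  simpa using h2

/-- the determinant as a linear function of the last argument -/
def mu (a b : Fin 3 → ℝ) : (Fin 3 → ℝ) →ₗ[ℝ] ℝ where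
  toFun z := D3 a b z
  map_add' y z := by simp only [D3, Pi.add_apply]; ring
  map_smul' r z := by simp only [D3, Pi.smul_apply, smul_eq_mul, RingHom.id_apply]; ring

/-- the function with value `1` at `a` and at `b` -/
noncomputable def th (a b c : Fin 3 → ℝ) : (Fin 3 → ℝ) →ₗ[ℝ] ℝ where
  toFun z := (D3 z b c + D3 a z c) / D3 a b c
  map_add' y z := by simp only [D3, Pi.add_apply]; ring
  map_smul' r z := by simp only [D3, Pi.smul_apply, smul_eq_mul, RingHom.id_apply]; ring

theorem D3_cyc (a b c : Fin 3 → ℝ) : D3 a b c = D3 b c a := by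
  simp only [D3]; ring

theorem cramer (a b c d : Fin 3 → ℝ) :
    D3 b c d • a + D3 a b d • c = D3 a c d • b + D3 a b c • d := by
  funext k
  fin_cases k <;> simp [D3] <;> ring

/-- `V` embedded by `x v = p v - p w` -/
def xx {V : Type} (p : V ⊕ Fin 1 → EuclideanSpace ℝ (Fin 3)) (v : V) : Fin 3 → ℝ :=
  fun k => p (Sum.inl v) k - p (Sum.inr 0) k

/-- linear functions on `Fin 3 → ℝ` as continuous linear functions on the Euclidean space -/
noncomputable def toC (f : (Fin 3 → ℝ) →ₗ[ℝ] ℝ) : EuclideanSpace ℝ (Fin 3) →L[ℝ] ℝ :=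
  LinearMap.toContinuousLinearMap
    (f ∘ₗ (WithLp.linearEquiv 2 ℝ (Fin 3 → ℝ)).toLinearMap)

theorem toC_apply (f : (Fin 3 → ℝ) →ₗ[ℝ] ℝ) (x : EuclideanSpace ℝ (Fin 3)) :
    toC f x = f (fun k => x k) := rfl

theorem toC_sub {V : Type} (f : (Fin 3 → ℝ) →ₗ[ℝ] ℝ)
    (p : V ⊕ Fin 1 → EuclideanSpace ℝ (Fin 3)) (v : V) :
    toC f (p (Sum.inl v)) = toC f (p (Sum.inr 0)) + f (xx p v) := by
  rw [toC_apply, toC_apply, ← map_add]
  congr 1
  funext k
  simp [xx]

/-- a criterion for edges -/
theorem adj_of {V : Type} [Fintype V] {G : SimpleGraph V}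
    {P : Set (EuclideanSpace ℝ (Fin 3))} {p : V ⊕ Fin 1 → EuclideanSpace ℝ (Fin 3)}
    (h : IsGraphOf 3 (joinComplete G 1) P p) {a b c : V} (hab : a ≠ b) (hca : c ≠ a)
    (hcb : c ≠ b) (hpos : ∀ z, z ≠ a → z ≠ b → 0 < D3 (xx p a) (xx p b) (xx p z)) :
    G.Adj a b := by
  have hD := hpos c hca hcb
  have hP := hull_eq h
  obtain ⟨A, hA⟩ := (Set.finite_range (fun z => (th (xx p a) (xx p b) (xx p c) (xx p z) - 1) /
    D3 (xx p a) (xx p b) (xx p z))).bddAbove
  have hA' : ∀ z, z ≠ a → z ≠ b → 0 < (A + 1) * D3 (xx p a) (xx p b) (xx p z) +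
      (1 - th (xx p a) (xx p b) (xx p c) (xx p z)) := by
    intro z hza hzb
    have h1 : (th (xx p a) (xx p b) (xx p c) (xx p z) - 1) / D3 (xx p a) (xx p b) (xx p z) ≤ A :=
      hA ⟨z, rfl⟩
    rw [div_le_iff₀ (hpos z hza hzb)] at h1
    nlinarith [hpos z hza hzb]
  have hmua : D3 (xx p a) (xx p b) (xx p a) = 0 := by simp only [D3]; ring
  have hmub : D3 (xx p a) (xx p b) (xx p b) = 0 := by simp only [D3]; ring
  have htha : th (xx p a) (xx p b) (xx p c) (xx p a) = 1 := by
    have : D3 (xx p a) (xx p a) (xx p c) = 0 := by simp only [D3]; ring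
    change (D3 (xx p a) (xx p b) (xx p c) + D3 (xx p a) (xx p a) (xx p c)) /
      D3 (xx p a) (xx p b) (xx p c) = 1
    rw [this, add_zero, div_self hD.ne']
  have hthb : th (xx p a) (xx p b) (xx p c) (xx p b) = 1 := by
    have : D3 (xx p b) (xx p b) (xx p c) = 0 := by simp only [D3]; ring
    change (D3 (xx p b) (xx p b) (xx p c) + D3 (xx p a) (xx p b) (xx p c)) /
      D3 (xx p a) (xx p b) (xx p c) = 1
    rw [this, zero_add, div_self hD.ne']
  set f : (Fin 3 → ℝ) →ₗ[ℝ] ℝ := (A + 1) • mu (xx p a) (xx p b) - th (xx p a) (xx p b) (xx p c)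
    with hf
  have hfx : ∀ z, f (xx p z) = (A + 1) * D3 (xx p a) (xx p b) (xx p z) -
      th (xx p a) (xx p b) (xx p c) (xx p z) := fun z => rfl
  rw [← adj_inl G 1]
  refine (h.2.2.2.2 _ _).2 ⟨fun h1 => hab (Sum.inl.inj h1), ?_⟩
  rw [hP]
  refine DimSix.exposed_segment p _ _ (toC f) (1 - toC f (p (Sum.inr 0))) ?_ ?_ ?_
  · rw [toC_sub, hfx, hmua, htha]; ring
  · rw [toC_sub, hfx, hmub, hthb]; ring
  · rintro (z | z) hza hzb
    · rw [toC_sub, hfx]
      have := hA' z (fun h => hza (by rw [h])) (fun h => hzb (by rw [h]))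
      linarith
    · have : z = 0 := Subsingleton.elim _ _
      rw [this]
      linarith

/-- crossing edges are impossible -/
theorem no_cross {V : Type} [Fintype V] {G : SimpleGraph V}
    {P : Set (EuclideanSpace ℝ (Fin 3))} {p : V ⊕ Fin 1 → EuclideanSpace ℝ (Fin 3)}
    (h : IsGraphOf 3 (joinComplete G 1) P p) {i j k l : V} (hij : j ≠ i) (hjk : j ≠ k)
    (hil : i ≠ l)
    {a b c d : ℝ} (ha : 0 < a) (hb : 0 < b) (hc : 0 < c) (hd : 0 < d)
    (hrel : a • xx p i + b • xx p k = c • xx p j + d • xx p l) (hle : c + d ≤ a + b)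
    (hlj : l ≠ j) :
    ¬ G.Adj i k := by
  classical
  intro hadj
  have hP := hull_eq h
  have hexp := ((h.2.2.2.2 _ _).1 ((adj_inl G 1 i k).2 hadj)).2
  rw [hP] at hexp
  refine DimSix.not_exposed p h.2.2.1 (by rw [← hP]; exact h.2.2.2.1) (Sum.inl i) (Sum.inl k)
    (Sum.inl j) (fun h => hij (Sum.inl.inj h)) (fun h => hjk (Sum.inl.inj h)) a b
    (fun u => if u = Sum.inl j then c else if u = Sum.inl l then d else
      if u = Sum.inr 0 then a + b - c - d else 0) ?_ ?_ ?_ ?_ hexp
  · intro x
    split_ifs <;> linarith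
  · simp only [if_true]
    exact hc
  · rw [Fintype.sum_sum_type]
    simp only [Sum.inl.injEq, Finset.univ_unique, Finset.sum_singleton, reduceCtorEq, if_false]
    have h1 : ∑ x : V, (if x = j then c else if x = l then d else 0) = c + d := by
      have : ∀ x : V, (if x = j then c else if x = l then d else 0) =
          (if x = j then c else 0) + (if x = l then d else 0) := by
        intro x
        by_cases h1 : x = j
        · have h2 : x ≠ l := fun h2 => hlj (h2.symm.trans h1)
          simp [h1, hlj.symm]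
        · simp [h1]
      rw [Finset.sum_congr rfl fun x _ => this x, Finset.sum_add_distrib]
      simp
    rw [h1]
    simp
  · rw [Fintype.sum_sum_type]
    simp only [Sum.inl.injEq, Finset.univ_unique, Finset.sum_singleton, reduceCtorEq, if_false]
    have h1 : ∑ x : V, (if x = j then c else if x = l then d else 0) • p (Sum.inl x) =
        c • p (Sum.inl j) + d • p (Sum.inl l) := by
      have : ∀ x : V, (if x = j then c else if x = l then d else 0) • p (Sum.inl x) =
          (if x = j then c • p (Sum.inl j) else 0) + (if x = l then d • p (Sum.inl l) else 0) := by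
        intro x
        by_cases h1 : x = j
        · simp [h1, hlj.symm]
        · by_cases h2 : x = l
          · simp [h2, hlj]
          · simp [h1, h2]
      rw [Finset.sum_congr rfl fun x _ => this x, Finset.sum_add_distrib]
      simp
    rw [h1]
    ext q
    have h2 := congrFun hrel q
    simp only [xx, Pi.add_apply, Pi.smul_apply, smul_eq_mul] at h2
    simp
    linarith

theorem p_l3geo : S_L3geo := by
  intro hlin V _ G hG
  obtain ⟨P, p, h⟩ := hG
  -- the number of vertices
  have hcard : 3 ≤ Fintype.card V :=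
    card_ge h (by simp [Fintype.card_sum])
  obtain ⟨m, hm⟩ : ∃ m, Fintype.card V = m + 3 := ⟨_, (Nat.sub_add_cancel hcard).symm⟩
  -- the functionals
  have hfun : ∀ v, ∃ l : (Fin 3 → ℝ) →ₗ[ℝ] ℝ, l (xx p v) = 0 ∧ ∀ u, u ≠ v → 0 < l (xx p u) := by
    intro v
    obtain ⟨l, hl1, hl2⟩ := edge_fun h (adj_inr G v)
    have hval : ∀ u, (-(l.toLinearMap ∘ₗ (WithLp.linearEquiv 2 ℝ (Fin 3 → ℝ)).symm.toLinearMap) :
        (Fin 3 → ℝ) →ₗ[ℝ] ℝ) (xx p u) = l (p (Sum.inr 0)) - l (p (Sum.inl u)) := by
      intro u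
      have h1 : (WithLp.linearEquiv 2 ℝ (Fin 3 → ℝ)).symm (xx p u) =
          p (Sum.inl u) - p (Sum.inr 0) := by
        ext k
        simp [xx]
      simp only [LinearMap.neg_apply, LinearMap.comp_apply, LinearEquiv.coe_coe, h1]
      change -(l (p (Sum.inl u) - p (Sum.inr 0))) = _
      rw [map_sub]
      ring
    refine ⟨_, (hval v).trans (by rw [hl1]; ring), fun u hu => ?_⟩
    rw [hval]
    have := hl2 (Sum.inl u) (by simp) (fun h => hu (Sum.inl.inj h))
    linarith
  obtain ⟨c, hc⟩ := hlin V (xx p) m hm hfun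
  refine ⟨m, c, ?_, ?_⟩
  · intro i
    -- a third vertex
    by_cases hi : i.val + 1 < m + 3
    · have h1 : (i + 1).val = i.val + 1 := by
        rw [Fin.val_add_one_of_lt']
        exact hi
      have hlt : i < i + 1 := by
        rw [Fin.lt_def, h1]
        omega
      obtain ⟨k, hk⟩ : ∃ k : Fin (m + 3), k ≠ i ∧ k ≠ i + 1 := by
        by_cases h0 : i.val = 0
        · refine ⟨⟨2, by omega⟩, ?_, ?_⟩
          · intro h
            have := congrArg Fin.val h
            simp only at this
            omega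
          · intro h
            have := congrArg Fin.val h
            rw [h1] at this
            simp only at this
            omega
        · refine ⟨⟨0, by omega⟩, ?_, ?_⟩
          · intro h
            have := congrArg Fin.val h
            simp only at this
            omega
          · intro h
            have := congrArg Fin.val h
            rw [h1] at this
            simp only at this
            omega
      refine adj_of h (c := c k) (fun h => hlt.ne (c.injective h))
        (fun h => hk.1 (c.injective h)) (fun h => hk.2 (c.injective h)) ?_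
      intro z hz1 hz2
      obtain ⟨j, rfl⟩ := c.surjective z
      have hj1 : j ≠ i := fun h => hz1 (by rw [h])
      have hj2 : j ≠ i + 1 := fun h => hz2 (by rw [h])
      rcases lt_or_gt_of_ne hj1 with h2 | h2
      · rw [← D3_cyc]
        exact hc _ _ _ h2 hlt
      · apply hc _ _ _ hlt
        rw [Fin.lt_def] at h2 ⊢
        rw [h1]
        have : j.val ≠ i.val + 1 := by
          rw [← h1]
          exact fun h => hj2 (Fin.ext h)
        omega
    · have hi' : i = Fin.last (m + 2) := by
        apply Fin.ext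
        simp only [Fin.val_last]
        have := i.isLt
        omega
      have h1 : i + 1 = 0 := by rw [hi']; simp
      rw [h1]
      have hlt : (0 : Fin (m + 3)) < i := by
        rw [hi', Fin.lt_def]
        simp
      refine adj_of h (c := c 1) (fun h => hlt.ne' (c.injective h))
        (fun h => ?_) (fun h => ?_) ?_
      · have := c.injective h
        rw [hi'] at this
        have := congrArg Fin.val this
        simp at this
      · have := c.injective h
        have := congrArg Fin.val this
        simp at this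
      · intro z hz1 hz2
        obtain ⟨j, rfl⟩ := c.surjective z
        have hj1 : j ≠ i := fun h => hz1 (by rw [h])
        have hj2 : j ≠ 0 := fun h => hz2 (by rw [h])
        rw [D3_cyc]
        apply hc
        · exact Fin.pos_of_ne_zero hj2
        · rw [hi'] at hj1 ⊢
          exact Fin.lt_last_iff_ne_last.2 hj1
  · rintro i j k l hij hjk hkl ⟨h1, h2⟩
    have hrel := cramer (xx p (c i)) (xx p (c j)) (xx p (c k)) (xx p (c l))
    have e1 := hc _ _ _ hjk hkl
    have e2 := hc _ _ _ hij (hjk.trans hkl)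
    have e3 := hc _ _ _ (hij.trans hjk) hkl
    have e4 := hc _ _ _ hij hjk
    rcases le_total (D3 (xx p (c i)) (xx p (c k)) (xx p (c l)) +
      D3 (xx p (c i)) (xx p (c j)) (xx p (c k))) (D3 (xx p (c j)) (xx p (c k)) (xx p (c l)) +
      D3 (xx p (c i)) (xx p (c j)) (xx p (c l))) with hle | hle
    · refine no_cross h (i := c i) (j := c j) (k := c k) (l := c l) ?_ ?_ ?_ e1 e2 e3 e4 hrel hle ?_ h1
      all_goals (intro h3; have := c.injective h3; omega)
    · refine no_cross h (i := c j) (j := c i) (k := c l) (l := c k) ?_ ?_ ?_ e3 e4 e1 e2 hrel.symm hle ?_ h2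
      all_goals (intro h3; have := c.injective h3; omega)

end Pool.Agent.W2helper60.DGL3geo
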